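import Pool.Agent.W910.BG.Fin

/-!
# Two-colourings of Borel bipartite graphs do not give ultrafilters

For every Borel graph without odd cycles on a Polish space there is a countable transitive model
of ZF + DC that contains a 2-colouring of the graph but no nonprincipal ultrafilter on the natural
numbers; moreover the model can be chosen to contain any given real.
-/

set_option autoImplicit false

namespace Pool.Agent.Results.MP_2948f4_lc.NoUltrafilter

open Pool.Agent.W868 Pool.Agent.W910.SY Pool.Agent.W910.BG

theorem result {X : Type} [TopologicalSpace X] [PolishSpace X] [MeasurableSpace X] [BorelSpace X]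
    (Γ : SimpleGraph X) (borel : MeasurableSet {p : X × X | Γ.Adj p.1 p.2})
    (bipartite : ∀ (x : X) (w : Γ.Walk x x), w.IsCycle → Even w.length)
    (e : X → ℕ → ℕ) (he : Measurable e) (inj : Function.Injective e) (z : ℕ → ℕ) :
    ∃ M : Set ZFSet.{0}, M.Countable ∧ IsZF M ∧ DC M ∧ code z ∈ M ∧
      (∃ c ∈ M, IsCol M Γ e c) ∧ ¬ ∃ U ∈ M, IsUlt M U :=
  model Γ borel bipartite e he inj z

end Pool.Agent.Results.MP_2948f4_lc.NoUltrafilter
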